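import Pool.Agent.Y489.PH.Stm2
import Pool.Agent.Y438.HS.DL

/-!
PH-DEG (job 8084): degree of maps close to the identity.
-/

set_option autoImplicit false

open MeasureTheory Set Metric Filter Topology
open scoped ENNReal NNReal

namespace Pool.Agent.Y239.PH.DEG

open Pool.Agent.Y485.HS Pool.Agent.Y489.PH

theorem exists_lower {n : ℕ} (L : E n →L[ℝ] E n) (hL : L.det ≠ 0) :
    ∃ c : ℝ, 0 < c ∧ ∀ w, c * ‖w‖ ≤ ‖L w‖ := by
  set e := L.toContinuousLinearEquivOfDetNeZero hL with he
  have hcoe : ∀ w, e w = L w := fun w => rfl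
  refine ⟨(‖(e.symm : E n →L[ℝ] E n)‖ + 1)⁻¹, by positivity, fun w => ?_⟩
  have h1 : ‖w‖ ≤ ‖(e.symm : E n →L[ℝ] E n)‖ * ‖L w‖ := by
    have h2 := (e.symm : E n →L[ℝ] E n).le_opNorm (e w)
    have h3 : (e.symm : E n →L[ℝ] E n) (e w) = w := e.symm_apply_apply w
    rw [h3, hcoe] at h2
    exact h2
  have h2 : 0 < ‖(e.symm : E n →L[ℝ] E n)‖ + 1 := by positivity
  rw [inv_mul_le_iff₀ h2]
  nlinarith [norm_nonneg (L w)]

theorem exists_min {ι : Type} (P : Finset ι) (a : ι → ℝ) (h : ∀ i ∈ P, 0 < a i) (c : ℝ)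
    (hc : 0 < c) : ∃ η : ℝ, 0 < η ∧ η ≤ c ∧ ∀ i ∈ P, η ≤ a i := by
  classical
  induction P using Finset.induction_on with
  | empty => exact ⟨c, hc, le_rfl, by simp⟩
  | insert i s his ih =>
    obtain ⟨η, h1, h2, h3⟩ := ih fun j hj => h j (Finset.mem_insert_of_mem hj)
    refine ⟨min η (a i), lt_min h1 (h i (Finset.mem_insert_self _ _)), (min_le_left _ _).trans h2,
      fun j hj => ?_⟩
    rcases Finset.mem_insert.1 hj with rfl | hj
    · exact min_le_right _ _
    · exact (min_le_left _ _).trans (h3 j hj)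

theorem sign_real (d : ℝ) : (((SignType.sign d : SignType) : ℤ) : ℝ) = d * |d⁻¹| := by
  rcases lt_trichotomy d 0 with h | h | h
  · rw [sign_neg h, abs_of_neg (inv_lt_zero.2 h)]
    have := h.ne
    push_cast
    field_simp
    simp
  · subst h
    simp
  · rw [sign_pos h, abs_of_pos (inv_pos.2 h)]
    have := h.ne'
    field_simp
    simp

/-- the integral of an affine image -/
theorem int_affine {n : ℕ} (L : E n →L[ℝ] E n) (hL : L.det ≠ 0) (φ : E n → ℝ) (hφ : Continuous φ)
    (x y : E n) : ∫ z, φ (y + L (z - x)) = |(L.det)⁻¹| * ∫ w, φ w := by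
  have h1 : ∫ z, φ (y + L (z - x)) = ∫ z, φ (y + L z) :=
    integral_sub_right_eq_self (fun z => φ (y + L z)) x
  have h2 : Measure.map (L : E n →ₗ[ℝ] E n) (volume : Measure (E n)) =
      ENNReal.ofReal |(LinearMap.det (L : E n →ₗ[ℝ] E n))⁻¹| • (volume : Measure (E n)) :=
    Measure.map_linearMap_addHaar_eq_smul_addHaar volume hL
  have h3 : ∫ w, φ (y + w) ∂(Measure.map (L : E n →ₗ[ℝ] E n) (volume : Measure (E n))) =
      ∫ z, φ (y + L z) := by
    refine integral_map (φ := fun z => L z) L.continuous.measurable.aemeasurable ?_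
    exact (hφ.comp (continuous_const.add continuous_id)).aestronglyMeasurable
  rw [h1, ← h3, h2, integral_smul_measure, ENNReal.toReal_ofReal (abs_nonneg _), smul_eq_mul,
    integral_add_left_eq_self φ y]

/-- PH-DEG -/
theorem t_DEG : S_APP → S_DEG := by
  intro happ n hn u hu hd y hy P D hP hD
  obtain ⟨F, K, ρ, c, hF, hid, hρ, hc, hdis, haff, hoff⟩ := happ n u hu hd y hy P D hP hD
  have hlow : ∀ x, ∃ k : ℝ, 0 < k ∧ (x ∈ P → ∀ w, k * ‖w‖ ≤ ‖D x w‖) := by
    intro x
    by_cases hx : x ∈ P
    · obtain ⟨k, hk, hk2⟩ := exists_lower (D x) (hD x hx).2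
      exact ⟨k, hk, fun _ => hk2⟩
    · exact ⟨1, one_pos, fun h => absurd h hx⟩
  choose k hk hk2 using hlow
  obtain ⟨η, hη, hηc, hηk⟩ := exists_min P (fun x => k x * ρ) (fun x _ => mul_pos (hk x) hρ) c hc
  set φ : E n → ℝ := fun w => max 0 (η - dist w y) with hφd
  have hφ : Continuous φ := continuous_const.max (continuous_const.sub (continuous_id.dist continuous_const))
  have hφ0 : ∀ w, η ≤ dist w y → φ w = 0 := by
    intro w hw
    exact max_eq_left (by linarith)
  have hφs : HasCompactSupport φ := by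
    refine HasCompactSupport.of_support_subset_isCompact (isCompact_closedBall y η) fun w hw => ?_
    rw [mem_closedBall]
    by_contra hlt
    push Not at hlt
    exact hw (hφ0 w hlt.le)
  have hφnn : 0 ≤ φ := fun w => le_max_left _ _
  have hφy : φ y ≠ 0 := by
    have : φ y = η := by
      rw [hφd]
      simp only [dist_self, sub_zero]
      exact max_eq_right hη.le
    rw [this]
    exact hη.ne'
  have hI : 0 < ∫ w, φ w := hφ.integral_pos_of_hasCompactSupport_nonneg_nonzero hφs hφnn hφy
  have hdl := Pool.Agent.Y438.HS.dl n F K 6 (by norm_num) hF hid φ hφ hφs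
  -- the terms vanish outside of the balls
  have hterm : ∀ x ∈ P, ∀ z, z ∉ ball x ρ → φ (y + D x (z - x)) = 0 := by
    intro x hx z hz
    apply hφ0
    rw [mem_ball, not_lt] at hz
    rw [dist_eq_norm, add_sub_cancel_left]
    calc η ≤ k x * ρ := hηk x hx
      _ ≤ k x * ‖z - x‖ := by
        rw [dist_eq_norm] at hz
        exact mul_le_mul_of_nonneg_left hz (hk x).le
      _ ≤ _ := hk2 x hx _
  have hpt : ∀ z, φ (F z) * (fderiv ℝ F z).det = ∑ x ∈ P, φ (y + D x (z - x)) * (D x).det := by
    intro z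
    by_cases hz : ∃ x ∈ P, z ∈ ball x ρ
    · obtain ⟨x, hx, hzx⟩ := hz
      have h1 : F =ᶠ[𝓝 z] fun z => y + D x (z - x) := by
        filter_upwards [isOpen_ball.mem_nhds hzx] with w hw
        exact haff x hx w hw
      have h2 : fderiv ℝ F z = D x := by
        rw [h1.fderiv_eq]
        have h3 : HasFDerivAt (fun z => y + D x (z - x)) (D x) z := by
          have h4 : HasFDerivAt (fun z : E n => z - x) (ContinuousLinearMap.id ℝ (E n)) z :=
            (hasFDerivAt_id z).sub_const x
          have h5 := (D x).hasFDerivAt (x := z - x)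
          have h6 := h5.comp z h4
          exact h6.const_add y
        exact h3.fderiv
      rw [h2, haff x hx z hzx, Finset.sum_eq_single_of_mem x hx]
      intro x' hx' hne
      have h3 : z ∉ ball x' ρ := by
        intro h4
        exact Set.disjoint_left.1 (hdis x hx x' hx' hne.symm) hzx h4
      rw [hterm x' hx' z h3, zero_mul]
    · push Not at hz
      rw [hφ0 (F z) (hηc.trans (hoff z hz)), zero_mul]
      symm
      refine Finset.sum_eq_zero fun x hx => ?_
      rw [hterm x hx z (hz x hx), zero_mul]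
  have hint : ∀ x ∈ P, Integrable (fun z => φ (y + D x (z - x)) * (D x).det) := by
    intro x hx
    apply Integrable.mul_const
    have h1 : Continuous fun z => φ (y + D x (z - x)) :=
      hφ.comp (continuous_const.add ((D x).continuous.comp (continuous_id.sub continuous_const)))
    refine h1.integrable_of_hasCompactSupport ?_
    refine HasCompactSupport.of_support_subset_isCompact (isCompact_closedBall x ρ) fun w hw => ?_
    rw [mem_closedBall]
    by_contra hlt
    push Not at hlt
    exact hw (hterm x hx w (by rw [mem_ball, not_lt]; exact hlt.le))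
  simp_rw [hpt] at hdl
  rw [integral_finsetSum _ hint] at hdl
  have hsum : ∑ x ∈ P, ∫ z, φ (y + D x (z - x)) * (D x).det =
      (∑ x ∈ P, (((SignType.sign (D x).det : SignType) : ℤ) : ℝ)) * ∫ w, φ w := by
    rw [Finset.sum_mul]
    refine Finset.sum_congr rfl fun x hx => ?_
    rw [integral_mul_const, int_affine (D x) (hD x hx).2 φ hφ x y, sign_real]
    ring
  rw [hsum] at hdl
  have h1 : (∑ x ∈ P, (((SignType.sign (D x).det : SignType) : ℤ) : ℝ)) = 1 := by
    have h2 : ((∑ x ∈ P, (((SignType.sign (D x).det : SignType) : ℤ) : ℝ)) - 1) * ∫ w, φ w = 0 := by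
      rw [sub_mul, hdl, one_mul, sub_self]
    have h3 := (mul_eq_zero.1 h2).resolve_right hI.ne'
    linarith
  exact_mod_cast h1

end Pool.Agent.Y239.PH.DEG
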