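import Pool.Agent.Y489.PH.Stm2

/-!
PH-STP (job 8086): Stepanov's theorem.
-/

set_option autoImplicit false

open MeasureTheory Set Metric Filter Topology
open scoped ENNReal NNReal

namespace Pool.Agent.Y239.PH.STP

open Pool.Agent.Y485.HS Pool.Agent.Y489.PH

variable {n : ℕ}

/-! ### closedness -/

theorem closed_AM {F : E n → E n} (hF : ContinuousOn F (BB n)) (m : ℕ) : IsClosed (AM n F m) := by
  have hsub : closedBall (0 : E n) 3 ⊆ BB n := closedBall_subset_closedBall (by norm_num)
  have h1 : AM n F m = closedBall (0 : E n) 3 ∩ ⋂ z ∈ BB n,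
      ({x | 1 / ((m : ℝ) + 1) ≤ dist z x} ∪
        {x | x ∈ closedBall (0 : E n) 3 ∧ dist (F z) (F x) ≤ m * dist z x}) := by
    ext x
    constructor
    · rintro ⟨hx, h⟩
      refine ⟨hx, ?_⟩
      rw [mem_iInter₂]
      intro z hz
      rcases le_or_gt (1 / ((m : ℝ) + 1)) (dist z x) with h2 | h2
      · exact Or.inl h2
      · exact Or.inr ⟨hx, h z hz h2⟩
    · rintro ⟨hx, h⟩
      rw [mem_iInter₂] at h
      refine ⟨hx, fun z hz hlt => ?_⟩
      rcases h z hz with h2 | h2
      · exact absurd hlt (not_lt.2 h2)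
      · exact h2.2
  rw [h1]
  refine isClosed_closedBall.inter (isClosed_biInter fun z hz => IsClosed.union ?_ ?_)
  · exact isClosed_le continuous_const (continuous_const.dist continuous_id)
  · refine IsClosed.isClosed_le isClosed_closedBall ?_ ?_
    · exact continuous_dist.comp_continuousOn (continuousOn_const.prodMk (hF.mono hsub))
    · exact (continuous_const.mul (continuous_const.dist continuous_id)).continuousOn

/-! ### density points -/

/-- near a density point there are points of the set at small relative distance -/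
theorem density {S : Set (E n)} {x : E n} (hx : x ∈ S)
    (h : Tendsto (fun r => (volume : Measure (E n)) (S ∩ closedBall x r) / volume (closedBall x r))
      (𝓝[>] 0) (𝓝 1)) {ε : ℝ} (hε : 0 < ε) (hε1 : ε ≤ 1) :
    ∀ᶠ z in 𝓝 x, ∃ z' ∈ S, dist z z' ≤ ε * dist z x := by
  set δ : ℝ := (ε / 2) ^ n with hδ
  have hδ0 : 0 < δ := by positivity
  have h1 : Tendsto (fun r => ((volume : Measure (E n)) (S ∩ closedBall x r) /
      volume (closedBall x r)).toReal) (𝓝[>] 0) (𝓝 1) := by
    have := (ENNReal.tendsto_toReal ENNReal.one_ne_top).comp h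
    rw [ENNReal.toReal_one] at this
    exact this
  have h2 : ∀ᶠ r in 𝓝[>] (0 : ℝ), 1 - δ < ((volume : Measure (E n)) (S ∩ closedBall x r) /
      volume (closedBall x r)).toReal := h1.eventually (lt_mem_nhds (by linarith))
  obtain ⟨r0, hr0, hr⟩ := (mem_nhdsGT_iff_exists_Ioo_subset).1 h2
  have hr0' : 0 < r0 := hr0
  filter_upwards [ball_mem_nhds x (half_pos hr0')] with z hz
  rw [mem_ball] at hz
  rcases (dist_nonneg (x := z) (y := x)).eq_or_lt with h0 | h0
  · exact ⟨x, hx, by rw [← h0]; simp⟩
  set ρ := dist z x with hρ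
  by_contra hno
  push Not at hno
  have h3 := hr (show 2 * ρ ∈ Ioo 0 r0 from ⟨by linarith, by linarith⟩)
  simp only [mem_ofPred_eq] at h3
  rw [ENNReal.toReal_div] at h3
  have hBpos : 0 < (volume (closedBall x (2 * ρ))).toReal := by
    apply ENNReal.toReal_pos
    · exact (measure_closedBall_pos volume x (by linarith)).ne'
    · exact measure_closedBall_lt_top.ne
  rw [lt_div_iff₀ hBpos] at h3
  -- the missing ball
  have hdisj : Disjoint (S ∩ closedBall x (2 * ρ)) (closedBall z (ε * ρ)) := by
    rw [Set.disjoint_left]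
    rintro w ⟨hw, -⟩ hwz
    have := hno w hw
    rw [mem_closedBall, dist_comm] at hwz
    linarith
  have hsub : (S ∩ closedBall x (2 * ρ)) ∪ closedBall z (ε * ρ) ⊆ closedBall x (2 * ρ) := by
    rintro w (⟨-, hw⟩ | hw)
    · exact hw
    · rw [mem_closedBall] at hw ⊢
      have := dist_triangle w z x
      nlinarith
  have h4 : volume (S ∩ closedBall x (2 * ρ)) + volume (closedBall z (ε * ρ)) ≤
      volume (closedBall x (2 * ρ)) := by
    rw [← measure_union hdisj measurableSet_closedBall]
    exact measure_mono hsub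
  have h5 : (volume (S ∩ closedBall x (2 * ρ))).toReal + (volume (closedBall z (ε * ρ))).toReal ≤
      (volume (closedBall x (2 * ρ))).toReal := by
    rw [← ENNReal.toReal_add]
    · exact ENNReal.toReal_mono measure_closedBall_lt_top.ne h4
    · exact (lt_of_le_of_lt (measure_mono inter_subset_right) measure_closedBall_lt_top).ne
    · exact measure_closedBall_lt_top.ne
  have h6 : (volume (closedBall z (ε * ρ))).toReal = δ * (volume (closedBall x (2 * ρ))).toReal := by
    rw [Measure.addHaar_closedBall volume z (by positivity : 0 ≤ ε * ρ),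
      Measure.addHaar_closedBall volume x (by positivity : 0 ≤ 2 * ρ), finrank_euclideanSpace,
      Fintype.card_fin, ENNReal.toReal_mul, ENNReal.toReal_mul,
      ENNReal.toReal_ofReal (by positivity), ENNReal.toReal_ofReal (by positivity), hδ, div_pow,
      mul_pow, mul_pow]
    field_simp
  rw [h6] at h5
  nlinarith

/-! ### the local pieces -/

/-- the pieces -/
def piece (n : ℕ) (F : E n → E n) (m : ℕ) (q : E n) : Set (E n) :=
  AM n F m ∩ ball q (1 / (2 * ((m : ℝ) + 1)))

theorem lip_piece (F : E n → E n) (m : ℕ) (q : E n) :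
    LipschitzOnWith (m : ℝ≥0) F (piece n F m q) := by
  have hsub : closedBall (0 : E n) 3 ⊆ BB n := closedBall_subset_closedBall (by norm_num)
  refine LipschitzOnWith.of_dist_le_mul fun z hz x hx => ?_
  have h1 : dist z x < 1 / ((m : ℝ) + 1) := by
    have h2 := hz.2
    have h3 := hx.2
    rw [mem_ball] at h2 h3
    have h4 := dist_triangle_right z x q
    have h5 : 1 / (2 * ((m : ℝ) + 1)) + 1 / (2 * ((m : ℝ) + 1)) = 1 / ((m : ℝ) + 1) := by
      field_simp
      norm_num
    linarith
  have := hx.1.2 z (hsub hz.1.1) h1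
  simpa using this

/-- the key step -/
theorem diff_at {F G : E n → E n} {m : ℕ} {K : ℝ≥0} {q x : E n} (hG : LipschitzWith K G)
    (hFG : EqOn G F (piece n F m q)) (hx : x ∈ piece n F m q) (hd : DifferentiableAt ℝ G x)
    (h : Tendsto (fun r => (volume : Measure (E n)) (piece n F m q ∩ closedBall x r) /
      volume (closedBall x r)) (𝓝[>] 0) (𝓝 1)) : DifferentiableAt ℝ F x := by
  have hL := hd.hasFDerivAt
  set L := fderiv ℝ G x with hLd
  refine HasFDerivAt.differentiableAt (f' := L) ?_
  rw [hasFDerivAt_iff_isLittleO, Asymptotics.isLittleO_iff] at hL ⊢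
  intro c hc
  have hmK : (0 : ℝ) < (m : ℝ) + K + 1 := by positivity
  set ε : ℝ := min 1 (c / (2 * ((m : ℝ) + K + 1))) with hε
  have hε0 : 0 < ε := lt_min one_pos (by positivity)
  have hε1 : ε ≤ 1 := min_le_left _ _
  have hε2 : ε * ((m : ℝ) + K + 1) ≤ c / 2 := by
    have : ε ≤ c / (2 * ((m : ℝ) + K + 1)) := min_le_right _ _
    calc ε * ((m : ℝ) + K + 1) ≤ c / (2 * ((m : ℝ) + K + 1)) * ((m : ℝ) + K + 1) :=
          mul_le_mul_of_nonneg_right this hmK.le
      _ = c / 2 := by field_simp
  have hBB : BB n ∈ 𝓝 x := by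
    have h1 : ball (0 : E n) 4 ∈ 𝓝 x := by
      apply isOpen_ball.mem_nhds
      have := hx.1.1
      rw [mem_closedBall] at this
      rw [mem_ball]
      linarith
    exact mem_of_superset h1 ball_subset_closedBall
  have hnear : ball x (1 / (2 * ((m : ℝ) + 1))) ∈ 𝓝 x := ball_mem_nhds x (by positivity)
  filter_upwards [hL (half_pos hc), density hx h hε0 hε1, hBB, hnear] with z hz1 hz2 hz3 hz4
  obtain ⟨z', hz', hzz'⟩ := hz2
  have e1 : G x = F x := hFG hx
  have e2 : G z' = F z' := hFG hz'
  have h1 : ‖F z - F z'‖ ≤ m * dist z z' := by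
    rw [← dist_eq_norm]
    refine hz'.1.2 z hz3 ?_
    rw [mem_ball] at hz4
    calc dist z z' ≤ ε * dist z x := hzz'
      _ ≤ 1 * dist z x := mul_le_mul_of_nonneg_right hε1 dist_nonneg
      _ < 1 / (2 * ((m : ℝ) + 1)) := by rw [one_mul]; exact hz4
      _ ≤ 1 / ((m : ℝ) + 1) := by
        apply one_div_le_one_div_of_le (by positivity)
        have : (0 : ℝ) ≤ m := Nat.cast_nonneg m
        linarith
  have h2 : ‖G z - G z'‖ ≤ K * dist z z' := by
    rw [← dist_eq_norm]
    exact hG.dist_le_mul z z'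
  have h3 : F z - F x - L (z - x) = (F z - F z') - (G z - G z') + (G z - G x - L (z - x)) := by
    rw [e1, e2]
    abel
  rw [h3]
  have hzx : dist z x = ‖z - x‖ := dist_eq_norm z x
  calc ‖(F z - F z') - (G z - G z') + (G z - G x - L (z - x))‖
      ≤ ‖F z - F z'‖ + ‖G z - G z'‖ + ‖G z - G x - L (z - x)‖ := by
        refine (norm_add_le _ _).trans (add_le_add_left (norm_sub_le _ _) _)
    _ ≤ m * dist z z' + K * dist z z' + c / 2 * ‖z - x‖ := add_le_add (add_le_add h1 h2) hz1
    _ ≤ c * ‖z - x‖ := by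
        have h4 : (0 : ℝ) ≤ dist z z' := dist_nonneg
        have h5 : ((m : ℝ) + K + 1) * dist z z' ≤ ((m : ℝ) + K + 1) * (ε * ‖z - x‖) := by
          rw [← hzx]
          exact mul_le_mul_of_nonneg_left hzz' hmK.le
        have h6 : (ε * ((m : ℝ) + K + 1)) * ‖z - x‖ ≤ c / 2 * ‖z - x‖ :=
          mul_le_mul_of_nonneg_right hε2 (norm_nonneg _)
        nlinarith

/-- PH-STP -/
theorem t_STP : S_STP := by
  intro n F hF m
  have hcl := closed_AM hF m
  have hr : (0 : ℝ) < 1 / (2 * ((m : ℝ) + 1)) := by positivity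
  have hcov : ∀ x : E n, ∃ k : ℕ, x ∈ ball (TopologicalSpace.denseSeq (E n) k) (1 / (2 * ((m : ℝ) + 1))) := by
    intro x
    obtain ⟨y, hy, k, rfl⟩ := Metric.dense_iff.1 (TopologicalSpace.denseRange_denseSeq (E n)) x _ hr
    exact ⟨k, by rw [mem_ball, dist_comm]; exact hy⟩
  refine ⟨hcl, ?_, fun N hN hN0 => ?_⟩
  · have h1 : ∀ᵐ x : E n, ∀ k : ℕ, x ∈ piece n F m (TopologicalSpace.denseSeq (E n) k) →
        DifferentiableAt ℝ F x := by
      rw [ae_all_iff]
      intro k
      set q := TopologicalSpace.denseSeq (E n) k with hq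
      have hmeas : MeasurableSet (piece n F m q) := hcl.measurableSet.inter measurableSet_ball
      rw [← ae_restrict_iff' hmeas]
      obtain ⟨G, hG, hFG⟩ := (lip_piece F m q).extend_finite_dimension
      have h2 := ae_restrict_of_ae (s := piece n F m q) (hG.ae_differentiableAt (μ := volume))
      have h3 := Besicovitch.ae_tendsto_measure_inter_div (volume : Measure (E n)) (piece n F m q)
      filter_upwards [h2, h3, ae_restrict_mem hmeas] with x hx2 hx3 hx4
      exact diff_at hG hFG.symm hx4 hx2 hx3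
    have h2 : ∀ᵐ x : E n, ¬ (x ∈ AM n F m ∧ ¬ DifferentiableAt ℝ F x) := by
      filter_upwards [h1] with x hx
      rintro ⟨hxA, hxd⟩
      obtain ⟨k, hk⟩ := hcov x
      exact hxd (hx k ⟨hxA, hk⟩)
    rw [ae_iff] at h2
    simpa using h2
  · have h1 : F '' N ⊆ ⋃ k : ℕ, F '' (N ∩ ball (TopologicalSpace.denseSeq (E n) k)
        (1 / (2 * ((m : ℝ) + 1)))) := by
      rintro _ ⟨x, hx, rfl⟩
      obtain ⟨k, hk⟩ := hcov x
      exact mem_iUnion.2 ⟨k, x, ⟨hx, hk⟩, rfl⟩
    refine measure_mono_null h1 (measure_iUnion_null fun k => ?_)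
    set N' := N ∩ ball (TopologicalSpace.denseSeq (E n) k) (1 / (2 * ((m : ℝ) + 1))) with hN'
    have h2 : volume N' = 0 := measure_mono_null inter_subset_left hN0
    have h3 : LipschitzOnWith (m : ℝ≥0) F N' :=
      (lip_piece F m _).mono (inter_subset_inter_left _ hN)
    have h4 := h3.hausdorffMeasure_image_le (d := Module.finrank ℝ (E n)) (by positivity)
    have h5 : (μH[Module.finrank ℝ (E n)] : Measure (E n)) N' = 0 :=
      Measure.absolutelyContinuous_isAddHaarMeasure _ volume h2
    rw [h5, mul_zero] at h4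
    have h6 : (μH[Module.finrank ℝ (E n)] : Measure (E n)) (F '' N') = 0 := le_antisymm h4 bot_le
    exact Measure.absolutelyContinuous_isAddHaarMeasure volume _ h6

end Pool.Agent.Y239.PH.STP
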